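import Pool.Agent.MWP.Stmts

/-!
# MWP row ORD (helper67)

The order against a local letter is kept.  Both words are restricted to the letters `c, z, 0` and
doubled, a power of `c` is appended on the right, so that the second blocks become `c c`; the first
blocks are brought to the normal forms `dbl [c,z,c]`, `dbl [c,z]`, `dbl [z,c]` by `sato`, and
undoubling gives an identity excluded by `e0` or by GE1.
-/

namespace Pool.Agent.MWP.H67

open Pool.Agent.Helper14_MV Pool.Agent.Helper2_MV Pool.Agent.MWF Pool.Agent.MWP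

theorem dbl_append (u v : List ℕ) : dbl (u ++ v) = dbl u ++ dbl v := by
  unfold dbl
  rw [List.flatMap_append]

theorem dbl_cons (a : ℕ) (u : List ℕ) : dbl (a :: u) = [a, a] ++ dbl u := by
  unfold dbl
  rw [List.flatMap_cons]

theorem d0_split {u v : List ℕ} (hu : 0 ∉ u) (hv : 0 ∉ v) :
    d0 (u ++ 0 :: v) = dbl u ++ 0 :: dbl v := by
  have h : ∀ w : List ℕ, 0 ∉ w → w.flatMap (fun c => if c = 0 then [0] else [c, c]) = dbl w := by
    intro w hw
    unfold dbl
    apply List.flatMap_congr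
    intro a ha
    have h1 : a ≠ 0 := by
      rintro rfl
      exact hw ha
    rw [if_neg h1]
  unfold d0
  rw [List.flatMap_append, List.flatMap_cons, h u hu, h v hv]
  rfl

theorem satoCZ {β : FIC} (hB : Bt β) {c z : ℕ} {u v : List ℕ} (hu : ∀ a, a ∈ u ↔ (a = c ∨ a = z))
    (hv : ∀ a, a ∈ v ↔ (a = c ∨ a = z)) (h1 : [c, z].Sublist u ↔ [c, z].Sublist v)
    (h2 : [z, c].Sublist u ↔ [z, c].Sublist v) : RR β (dbl u) (dbl v) := by
  apply hB.sato
  · intro a
    rw [hu, hv]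
  · intro a b hab
    constructor
    · intro h
      obtain ⟨ha, hb⟩ := pair_mem h
      rw [hu] at ha hb
      rcases ha with rfl | rfl
      · rcases hb with rfl | rfl
        · exact absurd rfl hab
        · exact h1.1 h
      · rcases hb with rfl | rfl
        · exact h2.1 h
        · exact absurd rfl hab
    · intro h
      obtain ⟨ha, hb⟩ := pair_mem h
      rw [hv] at ha hb
      rcases ha with rfl | rfl
      · rcases hb with rfl | rfl
        · exact absurd rfl hab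
        · exact h1.2 h
      · rcases hb with rfl | rfl
        · exact h2.2 h
        · exact absurd rfl hab

theorem satoC {β : FIC} (hB : Bt β) {c : ℕ} {u : List ℕ} (hu : ∀ a ∈ u, a = c) :
    RR β (dbl (u ++ [c])) (dbl [c]) := by
  apply hB.sato
  · intro a
    rw [List.mem_append, List.mem_singleton]
    constructor
    · rintro (h | h)
      · exact hu a h
      · exact h
    · exact Or.inr
  · intro a b hab
    constructor
    · intro h
      obtain ⟨ha, hb⟩ := pair_mem h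
      rw [List.mem_append, List.mem_singleton] at ha hb
      have h1 : a = c := ha.elim (hu a) id
      have h2 : b = c := hb.elim (hu b) id
      exact absurd (h1.trans h2.symm) hab
    · intro h
      obtain ⟨ha, hb⟩ := pair_mem h
      rw [List.mem_singleton] at ha hb
      exact absurd (ha.trans hb.symm) hab

/-- `x A x ≈ x x A x x` -/
theorem betA {β : FIC} (hB : Bt β) (A : List ℕ) :
    RR β (0 :: (A ++ [0])) ([0, 0] ++ A ++ [0, 0]) := by
  have h := hB.bet.sub (fun c => if c = 0 then [0] else A)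
  simpa using h

/-- `x² y² x² t x² ≈ x y y x t x` -/
theorem und {β : FIC} (hB : Bt β) : RR β [0, 1, 1, 0, 2, 0] [0, 0, 1, 1, 0, 0, 2, 0, 0] := by
  have s1 := betA hB [1, 1, 0, 2]
  have s2 := ((RR.refl (β := β) [0]).append (betA hB [1, 1])).append (RR.refl (β := β) [2, 0, 0])
  have s3 := hB.ap.sq.append (RR.refl (β := β) [1, 1, 0, 0, 2, 0, 0])
  exact β.trans s1 (β.trans s2 s3.symm)

theorem mem3 (c z a : ℕ) : a ∈ [c, z, c] ↔ (a = c ∨ a = z) := by
  simp only [List.mem_cons, List.not_mem_nil, or_false]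
  constructor
  · rintro (h | h | h)
    · exact Or.inl h
    · exact Or.inr h
    · exact Or.inl h
  · rintro (h | h)
    · exact Or.inl h
    · exact Or.inr (Or.inl h)

theorem mem2 (c z a : ℕ) : a ∈ [c, z] ↔ (a = c ∨ a = z) := by
  simp only [List.mem_cons, List.not_mem_nil, or_false]

theorem mem2' (c z a : ℕ) : a ∈ [z, c] ↔ (a = c ∨ a = z) := by
  rw [mem2]
  exact Or.comm

theorem pp {c z : ℕ} : [c, z].Sublist [c, z] := List.Sublist.refl _

theorem pn {c z : ℕ} (h : c ≠ z) : ¬ [z, c].Sublist [c, z] := by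
  intro h1
  rw [pair_cons, pair_cons] at h1
  rcases h1 with ⟨h2, _⟩ | ⟨_, h2⟩ | h2
  · exact h h2.symm
  · exact List.not_mem_nil h2
  · exact pair_nil h2

theorem p3 {c z : ℕ} : [c, z].Sublist [c, z, c] ∧ [z, c].Sublist [c, z, c] :=
  ⟨pair_cons.2 (Or.inl ⟨rfl, by simp⟩), pair_cons.2 (Or.inr (List.Sublist.refl _))⟩

/-- the renaming at the end -/
def gg (c z : ℕ) : ℕ → List ℕ := fun a => if a = c then [0] else if a = z then [1] else [2]

theorem gg_c (c z : ℕ) : gg c z c = [0] := by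
  unfold gg
  rw [if_pos rfl]

theorem gg_z {c z : ℕ} (h : c ≠ z) : gg c z z = [1] := by
  unfold gg
  rw [if_neg h.symm, if_pos rfl]

theorem gg_0 {c z : ℕ} (h : c ≠ 0) (h' : z ≠ 0) : gg c z 0 = [2] := by
  unfold gg
  rw [if_neg h.symm, if_neg h'.symm]

theorem caseA {β : FIC} (hB : Bt β) {c z : ℕ} (hcz : c ≠ z) (hc0 : c ≠ 0) (hz0 : z ≠ 0)
    {u u' : List ℕ} (hu : ∀ a, a ∈ u ↔ (a = c ∨ a = z)) (hu' : ∀ a, a ∈ u' ↔ (a = c ∨ a = z))
    (h : [z, c].Sublist u) (h' : ¬ [z, c].Sublist u')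
    (e : RR β (dbl u ++ 0 :: dbl [c]) (dbl u' ++ 0 :: dbl [c])) : False := by
  have e4 := (RR.refl (β := β) [c, c]).append e
  have e5 : RR β (dbl (c :: u) ++ 0 :: dbl [c]) (dbl (c :: u') ++ 0 :: dbl [c]) := by
    rw [dbl_cons c u, dbl_cons c u', List.append_assoc, List.append_assoc]
    exact e4
  have mc : ∀ w : List ℕ, (∀ a, a ∈ w ↔ (a = c ∨ a = z)) →
      ∀ a, a ∈ c :: w ↔ (a = c ∨ a = z) := by
    intro w hw a
    rw [List.mem_cons, hw]
    constructor
    · rintro (h | h)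
      · exact Or.inl h
      · exact h
    · exact Or.inr
  have cz : ∀ w : List ℕ, (∀ a, a ∈ w ↔ (a = c ∨ a = z)) → [c, z].Sublist (c :: w) :=
    fun w hw => pair_cons.2 (Or.inl ⟨rfl, (hw z).2 (Or.inr rfl)⟩)
  have s1 : RR β (dbl (c :: u)) (dbl [c, z, c]) :=
    satoCZ hB (mc u hu) (mem3 c z) ⟨fun _ => p3.1, fun _ => cz u hu⟩
      ⟨fun _ => p3.2, fun _ => pair_cons.2 (Or.inr h)⟩
  have s2 : RR β (dbl (c :: u')) (dbl [c, z]) := by
    refine satoCZ hB (mc u' hu') (mem2 c z) ⟨fun _ => pp, fun _ => cz u' hu'⟩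
      ⟨fun h1 => ?_, fun h1 => absurd h1 (pn hcz)⟩
    rcases pair_cons.1 h1 with ⟨h2, _⟩ | h2
    · exact absurd h2.symm hcz
    · exact absurd h2 h'
  have e6 : RR β (dbl [c, z, c] ++ 0 :: dbl [c]) (dbl [c, z] ++ 0 :: dbl [c]) :=
    β.trans (s1.append (RR.refl _)).symm (β.trans e5 (s2.append (RR.refl _)))
  have e7 := e6.sub (gg c z)
  have e8 : RR β [0, 0, 1, 1, 0, 0, 2, 0, 0] [0, 0, 1, 1, 2, 0, 0] := by
    simpa [dbl, gg_c c z, gg_z hcz, gg_0 hc0 hz0] using e7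
  have e9 := betA hB [1, 1, 2]
  exact hB.e0 (β.trans e9 (β.trans e8.symm (und hB).symm))

theorem flC {c : ℕ} : ∀ w : List ℕ, 0 ∉ w →
    w.flatMap (fun a => if a = 0 then [c, c, 0] else [a]) = w := by
  intro w hw
  have h5 : w.flatMap (fun a => if a = 0 then [c, c, 0] else [a]) =
      w.flatMap (fun a => [a]) := by
    apply List.flatMap_congr
    intro a ha
    have h6 : a ≠ 0 := by
      rintro rfl
      exact hw ha
    rw [if_neg h6]
  rw [h5, List.flatMap_singleton']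

theorem ndbl : ∀ w : List ℕ, 0 ∉ w → 0 ∉ dbl w := by
  intro w hw h5
  unfold dbl at h5
  obtain ⟨a, ha, h6⟩ := List.mem_flatMap.1 h5
  have h7 : 0 = a := by
    rcases List.mem_cons.1 h6 with h6 | h6
    · exact h6
    · exact List.mem_singleton.1 h6
  rw [← h7] at ha
  exact hw ha

theorem caseB {β : FIC} (hB : Bt β) (hge1 : Ge1Stmt) {c z : ℕ} (hcz : c ≠ z) (hc0 : c ≠ 0)
    (hz0 : z ≠ 0) {u u' : List ℕ} (hu : ∀ a, a ∈ u ↔ (a = c ∨ a = z))
    (hu' : ∀ a, a ∈ u' ↔ (a = c ∨ a = z)) (h : [c, z].Sublist u) (h' : ¬ [c, z].Sublist u')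
    (e : RR β (dbl u ++ 0 :: dbl [c]) (dbl u' ++ 0 :: dbl [c])) : False := by
  have n0 : ∀ w : List ℕ, (∀ a, a ∈ w ↔ (a = c ∨ a = z)) → 0 ∉ w := by
    intro w hw h1
    rcases (hw 0).1 h1 with h2 | h2
    · exact hc0 h2.symm
    · exact hz0 h2.symm
  have nc : 0 ∉ dbl [c] := ndbl [c] (by simpa using hc0.symm)
  -- substitute `0 ↦ c c 0`
  have e4 := e.sub (fun a => if a = 0 then [c, c, 0] else [a])
  rw [List.flatMap_append, List.flatMap_append, List.flatMap_cons,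
    flC _ (ndbl _ (n0 u hu)), flC _ (ndbl _ (n0 u' hu')), flC _ nc] at e4
  have e5 : RR β (dbl (u ++ [c]) ++ 0 :: dbl [c]) (dbl (u' ++ [c]) ++ 0 :: dbl [c]) := by
    rw [dbl_append, dbl_append]
    simpa [dbl] using e4
  have mc : ∀ w : List ℕ, (∀ a, a ∈ w ↔ (a = c ∨ a = z)) →
      ∀ a, a ∈ w ++ [c] ↔ (a = c ∨ a = z) := by
    intro w hw a
    rw [List.mem_append, hw, List.mem_singleton]
    constructor
    · rintro (h | h)
      · exact h
      · exact Or.inl h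
    · exact Or.inl
  have zc : ∀ w : List ℕ, (∀ a, a ∈ w ↔ (a = c ∨ a = z)) → [z, c].Sublist (w ++ [c]) :=
    fun w hw => pair_append.2 (Or.inr (Or.inl ⟨(hw z).2 (Or.inr rfl), List.mem_singleton.2 rfl⟩))
  have s1 : RR β (dbl (u ++ [c])) (dbl [c, z, c]) :=
    satoCZ hB (mc u hu) (mem3 c z) ⟨fun _ => p3.1, fun _ => pair_append.2 (Or.inl h)⟩
      ⟨fun _ => p3.2, fun _ => zc u hu⟩
  have s2 : RR β (dbl (u' ++ [c])) (dbl [z, c]) := by
    refine satoCZ hB (mc u' hu') (mem2' c z)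
      ⟨fun h1 => ?_, fun h1 => absurd h1 (pn hcz.symm)⟩ ⟨fun _ => pp, fun _ => zc u' hu'⟩
    rcases pair_append.1 h1 with h2 | ⟨_, h2⟩ | h2
    · exact absurd h2 h'
    · exact absurd (List.mem_singleton.1 h2).symm hcz
    · have h3 := h2.length_le
      simp at h3
  have e6 : RR β (dbl [c, z, c] ++ 0 :: dbl [c]) (dbl [z, c] ++ 0 :: dbl [c]) :=
    β.trans (s1.append (RR.refl _)).symm (β.trans e5 (s2.append (RR.refl _)))
  have e7 := e6.sub (gg c z)
  have e8 : RR β [0, 0, 1, 1, 0, 0, 2, 0, 0] [1, 1, 0, 0, 2, 0, 0] := by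
    simpa [dbl, gg_c c z, gg_z hcz, gg_0 hc0 hz0] using e7
  have e9 := (RR.refl (β := β) [1, 1]).append (betA hB [2])
  exact (hge1 β hB).1 (β.trans e9 (β.trans e8.symm (und hB).symm))

/-- the filter -/
def pf (c z : ℕ) : ℕ → Bool := fun a => decide (a = c ∨ a = z ∨ a = 0)

theorem pf_iff {c z a : ℕ} : pf c z a = true ↔ (a = c ∨ a = z ∨ a = 0) := by
  unfold pf
  exact decide_eq_true_iff

theorem pf_split (c z : ℕ) (a b : List ℕ) :
    (a ++ 0 :: b).filter (pf c z) = a.filter (pf c z) ++ 0 :: b.filter (pf c z) := by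
  rw [List.filter_append, List.filter_cons_of_pos (pf_iff.2 (Or.inr (Or.inr rfl)))]

theorem multD (hdb1 : Db1Stmt) {β : FIC} (hB : Bt β) {c z : ℕ} {a b : List ℕ} (ha : 0 ∉ a)
    (hb : 0 ∉ b) (hc : [c, c].Sublist (a ++ 0 :: b)) (hz : [z, z].Sublist (a ++ 0 :: b)) :
    RR β (a.filter (pf c z) ++ 0 :: b.filter (pf c z))
      (dbl (a.filter (pf c z)) ++ 0 :: dbl (b.filter (pf c z))) := by
  have n0 : ∀ w : List ℕ, 0 ∉ w → 0 ∉ w.filter (pf c z) :=
    fun w hw h => hw (List.mem_filter.1 h).1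
  rw [← d0_split (n0 a ha) (n0 b hb)]
  apply hdb1 β hB.ap hB.bet
  intro d hd hd0
  rw [← pf_split] at hd ⊢
  have h := pf_iff.1 (List.mem_filter.1 hd).2
  rcases h with h | h | h
  · rw [h]
    exact pair_filter.2 ⟨pf_iff.2 (Or.inl rfl), pf_iff.2 (Or.inl rfl), hc⟩
  · rw [h]
    exact pair_filter.2 ⟨pf_iff.2 (Or.inr (Or.inl rfl)), pf_iff.2 (Or.inr (Or.inl rfl)), hz⟩
  · exact absurd h hd0

theorem lastC {β : FIC} (hB : Bt β) {c z : ℕ} (w v : List ℕ) (hw : 0 ∉ w) (hzw : z ∉ w) :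
    RR β (v ++ 0 :: dbl (w.filter (pf c z)) ++ [c, c]) (v ++ 0 :: dbl [c]) := by
  have h := satoC hB (c := c) (u := w.filter (pf c z)) (by
    intro a ha
    have h2 := List.mem_filter.1 ha
    rcases pf_iff.1 h2.2 with h3 | h3 | h3
    · exact h3
    · rw [h3] at h2
      exact absurd h2.1 hzw
    · rw [h3] at h2
      exact absurd h2.1 hw)
  rw [dbl_append] at h
  have h3 := (RR.refl (β := β) (v ++ [0])).append h
  have e : v ++ 0 :: dbl (w.filter (pf c z)) ++ [c, c] =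
      v ++ [0] ++ (dbl (w.filter (pf c z)) ++ dbl [c]) := by
    simp [dbl]
  have e' : v ++ 0 :: dbl [c] = v ++ [0] ++ dbl [c] := by simp
  rw [e, e']
  exact h3

theorem lmem {c z : ℕ} (w : List ℕ) (hw : 0 ∉ w) (hc : c ∈ w) (hz : z ∈ w) :
    ∀ a, a ∈ w.filter (pf c z) ↔ (a = c ∨ a = z) := by
  intro a
  rw [List.mem_filter, pf_iff]
  constructor
  · rintro ⟨h, h2 | h2 | h2⟩
    · exact Or.inl h2
    · exact Or.inr h2
    · rw [h2] at h
      exact absurd h hw
  · rintro (rfl | rfl)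
    · exact ⟨hc, Or.inl rfl⟩
    · exact ⟨hz, Or.inr (Or.inl rfl)⟩

theorem ord (hiso : IsoStmt) (hdb1 : Db1Stmt) (hge1 : Ge1Stmt) (hegx : EgxStmt) : OrdStmt := by
  intro β hB w0 w1 w0' w1' h0 h1 h0' h1' hr c z hcz hc0 hz0 hzz hz1 hcw hcc
  have hzw : [z, z].Sublist (w0 ++ 0 :: w1) := hzz.trans (List.sublist_append_left _ _)
  have hzm : z ∈ w0 := (pair_mem hzz).1
  have hiz := hiso β hB.ap _ _ hr z
  have hic := hiso β hB.ap _ _ hr c
  have hez := hegx β hB w0 w1 w0' w1' h0 h1 h0' h1' hr z hz0 hzw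
  have hec := hegx β hB w0 w1 w0' w1' h0 h1 h0' h1' hr c hc0 hcc
  have hzm' : z ∈ w0' := hez.1.1 hzm
  have hz1' : z ∉ w1' := fun h => hz1 (hez.2.2 h)
  have hcw' : c ∈ w0' := hec.1.1 hcw
  have hf := hr.filter (pf c z)
  rw [pf_split, pf_split] at hf
  have d1 := multD hdb1 hB h0 h1 hcc hzw
  have d2 := multD hdb1 hB h0' h1' (hic.2.1 hcc) (hiz.2.1 hzw)
  have e1 : RR β (dbl (w0.filter (pf c z)) ++ 0 :: dbl (w1.filter (pf c z)))
      (dbl (w0'.filter (pf c z)) ++ 0 :: dbl (w1'.filter (pf c z))) :=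
    β.trans d1.symm (β.trans hf d2)
  have e2 := e1.append (RR.refl (β := β) [c, c])
  have e3 : RR β (dbl (w0.filter (pf c z)) ++ 0 :: dbl [c])
      (dbl (w0'.filter (pf c z)) ++ 0 :: dbl [c]) :=
    β.trans (lastC hB w1 _ h1 hz1).symm (β.trans e2 (lastC hB w1' _ h1' hz1'))
  have fp : ∀ (a b : ℕ) (w : List ℕ), pf c z a = true → pf c z b = true →
      ([a, b].Sublist (w.filter (pf c z)) ↔ [a, b].Sublist w) := by
    intro a b w ha hb
    rw [pair_filter]
    exact ⟨fun h => h.2.2, fun h => ⟨ha, hb, h⟩⟩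
  have pc : pf c z c = true := pf_iff.2 (Or.inl rfl)
  have pz : pf c z z = true := pf_iff.2 (Or.inr (Or.inl rfl))
  constructor
  · intro h
    by_contra hcon
    exact caseB hB hge1 hcz hc0 hz0 (lmem w0 h0 hcw hzm) (lmem w0' h0' hcw' hzm')
      ((fp c z w0 pc pz).2 h) (fun h5 => hcon ((fp c z w0' pc pz).1 h5)) e3
  · intro h
    by_contra hcon
    exact caseA hB hcz hc0 hz0 (lmem w0 h0 hcw hzm) (lmem w0' h0' hcw' hzm')
      ((fp z c w0 pz pc).2 h) (fun h5 => hcon ((fp z c w0' pz pc).1 h5)) e3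

end Pool.Agent.MWP.H67
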